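import Pool.Agent.Run7.h934.ChainBoth

set_option autoImplicit false

namespace Pool.Agent.Results.MP_57c4e5_pr.GrowthOrder

open Run7.h934.Chain

theorem result : ∀ α : ℝ, 2 < α → α < 3 → ∃ c C : ℝ, 0 < c ∧ 0 < C ∧ ∀ β : ℝ, 0 < β →
    (∀ n : ℕ, 1 ≤ n → variance α β n ≤ C / β * (n : ℝ) ^ (α - 2)) ∧
    (∃ n₀ : ℕ, ∀ n : ℕ, n₀ ≤ n → c / β * (n : ℝ) ^ (α - 2) ≤ variance α β n) ∧
    (∃ b : ℝ, 0 < b ∧ ∀ n : ℕ, b * (n : ℝ) ^ (α - 2) ≤ variance α β n) :=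
  two_sided

end Pool.Agent.Results.MP_57c4e5_pr.GrowthOrder
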